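import Pool.Agent.PJC.Stmts

/-! # Squad PJC (MP_ca8ef3_an), row SWP: the dual pair, scaled -/

set_option autoImplicit false

namespace Pool.Agent.PJC.H30

theorem swp : SwpStmt := by
  intro n p q ε hn hd hb
  have hs : 0 < √(n : ℝ) := Real.sqrt_pos.2 (by exact_mod_cast hn)
  have hs0 : √(n : ℝ) ≠ 0 := hs.ne'
  let r : NNReal := ⟨√(n : ℝ), hs.le⟩
  let P : Seminorm ℝ (Eu n) := r • q
  let Q : Seminorm ℝ (Eu n) := r⁻¹ • p
  have hP : ∀ x, P x = √n * q x := by
    intro x
    show (r • q) x = _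
    rw [Seminorm.smul_apply]
    rfl
  have hQ : ∀ x, Q x = p x / √n := by
    intro x
    show (r⁻¹ • p) x = _
    rw [Seminorm.smul_apply, div_eq_inv_mul]
    rfl
  have hq2 : ∀ x, q ((√(n : ℝ))⁻¹ • x) = q x / √n := by
    intro x
    rw [map_smul_eq_mul, Real.norm_eq_abs, abs_of_pos (inv_pos.2 hs), div_eq_inv_mul]
  have hp2 : ∀ x, p (√(n : ℝ) • x) = √n * p x := by
    intro x
    rw [map_smul_eq_mul, Real.norm_eq_abs, abs_of_pos hs]
  refine ⟨P, Q, hP, hQ, ⟨?_, ?_, ?_⟩, ?_⟩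
  · intro f v
    rw [hP, hQ, real_inner_comm]
    have h := hd.le v f
    have h2 : p f / √n * (√n * q v) = q v * p f := by
      field_simp
    rw [h2]
    exact h
  · intro f
    obtain ⟨g, hg, hg2⟩ := hd.exQ f
    refine ⟨(√(n : ℝ))⁻¹ • g, ?_, ?_⟩
    · rw [hP, hq2]
      have h2 : √n * (q g / √n) = q g := by
        field_simp
      rw [h2]
      exact hg
    · rw [hQ, inner_smul_right, real_inner_comm, hg2, div_eq_inv_mul]
  · intro v
    obtain ⟨w, hw, hw2⟩ := hd.exP v
    refine ⟨√(n : ℝ) • w, ?_, ?_⟩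
    · rw [hQ, hp2, mul_div_cancel_left₀ _ hs0]
      exact hw
    · rw [hP, real_inner_smul_left, real_inner_comm, hw2]
  · intro f z hfz
    obtain ⟨g, y, hg, hy, h⟩ := hb z f (by rw [real_inner_comm]; exact hfz)
    refine ⟨√(n : ℝ) • y, (√(n : ℝ))⁻¹ • g, ?_, ?_, ?_⟩
    · rw [hQ, hp2, mul_div_cancel_left₀ _ hs0]
      exact hy
    · rw [hP, hq2]
      have h2 : √n * (q g / √n) = q g := by
        field_simp
      rw [h2]
      exact hg
    · refine le_trans h (le_of_eq ?_)
      rw [real_inner_smul_left, inner_smul_right, inner_smul_right, real_inner_smul_left,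
        real_inner_comm y g, real_inner_comm y z, real_inner_comm f g]
      field_simp

end Pool.Agent.PJC.H30
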